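import Pool.Agent.Helper70.Isg.Goals2

/-! # Packet EVG: matrix form of the finite volume expectations -/

set_option autoImplicit false

noncomputable section

namespace Pool.Agent.Helper90.Isg

open Pool.Agent.Helper70.Isg

variable {d : ℕ}

theorem glue_mem (Λ : Finset (Site d)) (τ : Λ → Bool) (η : Cfg d) (u : Λ) :
    glue Λ τ η (u : Site d) = τ u := by
  unfold glue
  rw [dif_pos u.2]

theorem glue_notMem (Λ : Finset (Site d)) (τ : Λ → Bool) (η : Cfg d) {v : Site d} (h : v ∉ Λ) :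
    glue Λ τ η v = η v := by
  unfold glue
  rw [dif_neg h]

theorem energy_eq (β : ℝ) (Λ : Finset (Site d)) (η : Cfg d) (τ : Λ → Bool) :
    β * enrg Λ (glue Λ τ η) = gE (latJ β Λ) (latH β Λ η) τ := by
  set g := glue Λ τ η with hg
  have e1 : gE (latJ β Λ) (latH β Λ η) τ = ∑ u ∈ Λ,
      ((∑ v ∈ Λ, (if v ∈ nbrs u then β / 2 else 0) * (sg (g u) * sg (g v))) +
        (β * ∑ v ∈ (nbrs u).filter (· ∉ Λ), sg (η v)) * sg (g u)) := by
    unfold gE latJ latH
    rw [← Finset.sum_add_distrib, ← Finset.sum_coe_sort Λ (fun u =>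
      ((∑ v ∈ Λ, (if v ∈ nbrs u then β / 2 else 0) * (sg (g u) * sg (g v))) +
        (β * ∑ v ∈ (nbrs u).filter (· ∉ Λ), sg (η v)) * sg (g u)))]
    refine Finset.sum_congr rfl fun u _ => ?_
    rw [← Finset.sum_coe_sort Λ (fun v =>
      (if v ∈ nbrs (u : Site d) then β / 2 else 0) * (sg (g u) * sg (g v)))]
    rw [hg]
    simp only [glue_mem]
  rw [e1]
  unfold enrg
  rw [Finset.mul_sum]
  refine Finset.sum_congr rfl fun u _ => ?_
  rw [← Finset.sum_filter_add_sum_filter_not (nbrs u) (· ∈ Λ), mul_add]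
  congr 1
  · have e2 : ∑ v ∈ Λ, (if v ∈ nbrs u then β / 2 else 0) * (sg (g u) * sg (g v)) =
        ∑ v ∈ Λ.filter (· ∈ nbrs u), β / 2 * (sg (g u) * sg (g v)) := by
      rw [Finset.sum_filter]
      refine Finset.sum_congr rfl fun v _ => ?_
      split_ifs
      · rfl
      · rw [zero_mul]
    have e3 : Λ.filter (· ∈ nbrs u) = (nbrs u).filter (· ∈ Λ) := by
      ext v
      simp only [Finset.mem_filter]
      tauto
    rw [e2, e3, Finset.mul_sum]
    refine Finset.sum_congr rfl fun v hv => ?_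
    rw [if_pos (Finset.mem_filter.1 hv).2]
    ring
  · rw [Finset.mul_sum, Finset.mul_sum, Finset.sum_mul]
    refine Finset.sum_congr rfl fun v hv => ?_
    have hv2 := (Finset.mem_filter.1 hv).2
    rw [if_neg hv2, hg, glue_notMem Λ τ η hv2]
    ring

theorem pf_EVG : S_EVG := by
  intro d β Λ η f
  unfold ev gav pf wt
  simp only [energy_eq]

end Pool.Agent.Helper90.Isg
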