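import Pool.Agent.Helper70.Isg.Goals2

/-! # Packet GREEDY: the greedy expansion -/

set_option autoImplicit false

noncomputable section

namespace Pool.Agent.Helper90.Isg

open Pool.Agent.Helper70.Isg Filter Topology

theorem pf_GREEDY : S_GREEDY := by
  intro L p hL hp0 hp1
  have hinv : ∀ k, 0 ≤ p - gsum L k ∧ p - gsum L k ≤ (2 / 3 : ℝ) ^ k := by
    intro k
    induction k with
    | zero =>
      simp only [gsum, pow_zero]
      constructor <;> linarith
    | succ k ih =>
      obtain ⟨h1, h2⟩ := ih
      obtain ⟨h3, h4⟩ := hL k
      have hpow : (2 / 3 : ℝ) ^ (k + 1) = (2 / 3) ^ k * (2 / 3) := pow_succ _ _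
      have hlam : lam k = (1 / 3) * (2 / 3) ^ k := rfl
      simp only [gsum]
      by_cases hc : lam k ≤ L k - gsum L k
      · rw [if_pos hc]
        constructor
        · linarith
        · rw [hpow]
          rw [hlam]
          linarith
      · rw [if_neg hc]
        push Not at hc
        constructor
        · linarith
        · rw [hpow]
          rw [hlam] at hc h4
          linarith
  have hsum : ∀ n, ∑ k ∈ Finset.range n, (if gbit L k then lam k else 0) = gsum L n := by
    intro n
    induction n with
    | zero => simp [gsum]
    | succ n ih =>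
      rw [Finset.sum_range_succ, ih]
      simp only [gsum, gbit, decide_eq_true_eq]
  have hnn : ∀ k, 0 ≤ (if gbit L k then lam k else 0) := by
    intro k
    split_ifs
    · unfold lam
      positivity
    · exact le_refl _
  rw [hasSum_iff_tendsto_nat_of_nonneg hnn]
  simp only [hsum]
  have h0 : Tendsto (fun n => p - gsum L n) atTop (𝓝 0) :=
    squeeze_zero (fun n => (hinv n).1) (fun n => (hinv n).2)
      (tendsto_pow_atTop_nhds_zero_of_lt_one (by norm_num) (by norm_num))
  have h1 : Tendsto (fun n => p - (p - gsum L n)) atTop (𝓝 (p - 0)) := h0.const_sub p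
  simpa using h1

end Pool.Agent.Helper90.Isg
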