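import Pool.Agent.Helper70.Isg.Goals2

/-! # Packet MONB: monotonicity in the boundary condition -/

set_option autoImplicit false

noncomputable section

namespace Pool.Agent.Helper90.Isg

open Pool.Agent.Helper70.Isg

variable {d : ℕ}

theorem gav_mono {V : Type} [Fintype V] [DecidableEq V] (J : V → V → ℝ) (h : V → ℝ)
    {f g : (V → Bool) → ℝ} (hfg : ∀ σ, f σ ≤ g σ) : gav J h f ≤ gav J h g := by
  unfold gav
  apply div_le_div_of_nonneg_right
  · exact Finset.sum_le_sum fun σ _ => mul_le_mul_of_nonneg_right (hfg σ) (Real.exp_pos _).le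
  · exact Finset.sum_nonneg fun σ _ => (Real.exp_pos _).le

theorem sg_mono {b b' : Bool} (h : b ≤ b') : sg b ≤ sg b' := by
  cases b <;> cases b'
  · exact le_refl _
  · simp [sg]
  · exact absurd h (by decide)
  · exact le_refl _

theorem glue_mono (Λ : Finset (Site d)) (η : Cfg d) : Monotone fun τ : Λ → Bool => glue Λ τ η := by
  intro τ τ' h v
  simp only [glue]
  split_ifs with hv
  · exact h _
  · exact le_refl _

theorem glue_mono' (Λ : Finset (Site d)) (τ : Λ → Bool) {η η' : Cfg d}
    (h : ∀ v ∉ Λ, η v ≤ η' v) : glue Λ τ η ≤ glue Λ τ η' := by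
  intro v
  simp only [glue]
  split_ifs with hv
  · exact le_refl _
  · exact h v hv

theorem pf_MONB (_hB : S_BASIC) (hE : S_EVG) (hF : S_FKGH) : S_MONB := by
  intro d β Λ η η' f hβ hη hf
  rw [hE, hE]
  refine (gav_mono _ _ fun τ => hf (glue_mono' Λ τ hη)).trans ?_
  refine hF Λ (latJ β Λ) (latH β Λ η) (latH β Λ η') (fun τ => f (glue Λ τ η')) ?_ ?_ ?_
  · intro a b
    unfold latJ
    split_ifs
    · positivity
    · exact le_refl _
  · intro a
    unfold latH
    apply mul_le_mul_of_nonneg_left _ hβ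
    exact Finset.sum_le_sum fun v hv => sg_mono (hη v (Finset.mem_filter.1 hv).2)
  · exact hf.comp (glue_mono Λ η')

end Pool.Agent.Helper90.Isg
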