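import Pool.Agent.Helper70.Isg.Goals2

/-! # Packet POSY: Laurent polynomials with two sign changes -/

set_option autoImplicit false

noncomputable section

namespace Pool.Agent.Helper90.Isg

open Pool.Agent.Helper70.Isg

theorem pf_POSY : S_POSY := by
  intro q k₁ k₂ x y z hk hin hout hx hxy hyz hQx hQz
  have hy : 0 < y := hx.trans hxy
  have hz : 0 < z := hy.trans hyz
  set u := x / y with hu
  set v := z / y with hv
  have hu0 : 0 < u := div_pos hx hy
  have hu1 : u < 1 := (div_lt_one hy).2 hxy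
  have hv0 : 0 < v := div_pos hz hy
  have hv1 : 1 < v := (one_lt_div hy).2 hyz
  have hU : u ^ k₂ < u ^ k₁ := Real.rpow_lt_rpow_of_exponent_gt hu0 hu1 hk
  have hV : v ^ k₁ < v ^ k₂ := Real.rpow_lt_rpow_of_exponent_lt hv1 hk
  have pU1 : 0 < u ^ k₁ := Real.rpow_pos_of_pos hu0 _
  have pU2 : 0 < u ^ k₂ := Real.rpow_pos_of_pos hu0 _
  have pV1 : 0 < v ^ k₁ := Real.rpow_pos_of_pos hv0 _
  have pV2 : 0 < v ^ k₂ := Real.rpow_pos_of_pos hv0 _
  have hD : 0 < u ^ k₁ * v ^ k₂ - u ^ k₂ * v ^ k₁ := by nlinarith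
  set D := u ^ k₁ * v ^ k₂ - u ^ k₂ * v ^ k₁ with hDdef
  set w₁ := (v ^ k₂ - v ^ k₁) / D with hw₁
  set w₂ := (u ^ k₁ - u ^ k₂) / D with hw₂
  have h1 : 0 < w₁ := div_pos (by linarith) hD
  have h2 : 0 < w₂ := div_pos (by linarith) hD
  let φ : ℝ → ℝ := fun k => w₁ * u ^ k + w₂ * v ^ k
  have hφ1 : φ k₁ = 1 := by
    show w₁ * u ^ k₁ + w₂ * v ^ k₁ = 1
    rw [hw₁, hw₂]
    field_simp
    rw [hDdef]
    ring
  have hφ2 : φ k₂ = 1 := by
    show w₁ * u ^ k₂ + w₂ * v ^ k₂ = 1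
    rw [hw₁, hw₂]
    field_simp
    rw [hDdef]
    ring
  have hconv : ConvexOn ℝ Set.univ φ :=
    ((convexOn_rpow_left hu0).smul h1.le).add ((convexOn_rpow_left hv0).smul h2.le)
  have conv : ∀ s t a b : ℝ, 0 ≤ a → 0 ≤ b → a + b = 1 → φ (a * s + b * t) ≤ a * φ s + b * φ t :=
    fun s t a b ha hb hab => hconv.2 (Set.mem_univ s) (Set.mem_univ t) ha hb hab
  have hle : ∀ k, k₁ < k → k < k₂ → φ k ≤ 1 := by
    intro k hk1 hk2
    have := conv k₁ k₂ ((k₂ - k) / (k₂ - k₁)) ((k - k₁) / (k₂ - k₁)) (div_nonneg (by linarith) (by linarith))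
      (div_nonneg (by linarith) (by linarith)) (by
        rw [← add_div]
        rw [show k₂ - k + (k - k₁) = k₂ - k₁ by ring, div_self (by linarith)])
    rw [hφ1, hφ2] at this
    have hkk : k₂ - k₁ ≠ 0 := by linarith
    have e1 : ((k₂ - k) / (k₂ - k₁)) * k₁ + ((k - k₁) / (k₂ - k₁)) * k₂ = k := by
      field_simp
      ring
    have e2 : ((k₂ - k) / (k₂ - k₁)) * (1 : ℝ) + ((k - k₁) / (k₂ - k₁)) * (1 : ℝ) = 1 := by
      field_simp
      ring
    rw [e1, e2] at this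
    exact this
  have hge1 : ∀ k, k ≤ k₁ → 1 ≤ φ k := by
    intro k hk1
    rcases hk1.eq_or_lt with h | h
    · rw [h, hφ1]
    · have hkk : k₂ - k ≠ 0 := by linarith
      have hpos : 0 < k₂ - k := by linarith
      have := conv k k₂ ((k₂ - k₁) / (k₂ - k)) ((k₁ - k) / (k₂ - k)) (div_nonneg (by linarith) hpos.le)
        (div_nonneg (by linarith) hpos.le) (by
          rw [← add_div]
          rw [show k₂ - k₁ + (k₁ - k) = k₂ - k by ring, div_self hkk])
      have e1 : ((k₂ - k₁) / (k₂ - k)) * k + ((k₁ - k) / (k₂ - k)) * k₂ = k₁ := by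
        field_simp
        ring
      rw [e1, hφ1, hφ2, mul_one, div_mul_eq_mul_div, ← add_div,
        le_div_iff₀ hpos] at this
      nlinarith
  have hge2 : ∀ k, k₂ ≤ k → 1 ≤ φ k := by
    intro k hk1
    rcases hk1.eq_or_lt with h | h
    · rw [← h, hφ2]
    · have hkk : k - k₁ ≠ 0 := by linarith
      have hpos : 0 < k - k₁ := by linarith
      have := conv k₁ k ((k - k₂) / (k - k₁)) ((k₂ - k₁) / (k - k₁)) (div_nonneg (by linarith) hpos.le)
        (div_nonneg (by linarith) hpos.le) (by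
          rw [← add_div]
          rw [show k - k₂ + (k₂ - k₁) = k - k₁ by ring, div_self hkk])
      have e1 : ((k - k₂) / (k - k₁)) * k₁ + ((k₂ - k₁) / (k - k₁)) * k = k₂ := by
        field_simp
        ring
      rw [e1, hφ1, hφ2, mul_one, div_mul_eq_mul_div, ← add_div,
        le_div_iff₀ hpos] at this
      nlinarith
  -- the terms
  have hterm : ∀ k ∈ Finset.Icc (-2 : ℤ) 2,
      w₁ * (q k * x ^ k) + w₂ * (q k * z ^ k) ≤ q k * y ^ k := by
    intro k hkm
    have e : w₁ * (q k * x ^ k) + w₂ * (q k * z ^ k) = q k * (y ^ k * φ (k : ℝ)) := by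
      show _ = q k * (y ^ k * (w₁ * u ^ (k : ℝ) + w₂ * v ^ (k : ℝ)))
      rw [Real.rpow_intCast, Real.rpow_intCast, hu, hv, div_zpow, div_zpow]
      have : y ^ k ≠ 0 := (zpow_pos hy k).ne'
      field_simp
    rw [e]
    have hyk : 0 < y ^ k := zpow_pos hy k
    by_cases hc : k₁ < k ∧ (k : ℝ) < k₂
    · have h3 := hin k hkm hc.1 hc.2
      apply mul_le_mul_of_nonneg_left _ h3
      have := hle k hc.1 hc.2
      nlinarith
    · have h3 := hout k hkm hc
      apply mul_le_mul_of_nonpos_left _ h3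
      have h4 : 1 ≤ φ (k : ℝ) := by
        by_cases h5 : k₁ < k
        · exact hge2 k (not_lt.1 fun h6 => hc ⟨h5, h6⟩)
        · exact hge1 k (not_lt.1 h5)
      nlinarith
  have hsum := Finset.sum_le_sum hterm
  rw [Finset.sum_add_distrib, ← Finset.mul_sum, ← Finset.mul_sum] at hsum
  have h6 : 0 < w₂ * ∑ k ∈ Finset.Icc (-2 : ℤ) 2, q k * z ^ k := mul_pos h2 hQz
  have h7 : 0 ≤ w₁ * ∑ k ∈ Finset.Icc (-2 : ℤ) 2, q k * x ^ k := mul_nonneg h1.le hQx
  linarith

end Pool.Agent.Helper90.Isg
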