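import Pool.Agent.Helper70.Isg.Goals2

/-! # Packet TRAN: translation invariance of the specification -/

set_option autoImplicit false

noncomputable section

namespace Pool.Agent.Helper90.Isg

open Pool.Agent.Helper70.Isg

variable {d : ℕ}

theorem nbrs_add (w u : Site d) : nbrs (w + u) = (nbrs w).image (· + u) := by
  unfold nbrs
  rw [Finset.image_image]
  refine Finset.image_congr fun p _ => ?_
  simp only [Function.comp]
  exact add_right_comm _ _ _

theorem mem_tr {Λ : Finset (Site d)} {u v : Site d} :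
    v ∈ Λ.image (· + u) ↔ v - u ∈ Λ := by
  rw [Finset.mem_image]
  constructor
  · rintro ⟨w, hw, rfl⟩
    rwa [add_sub_cancel_right]
  · intro h
    exact ⟨v - u, h, sub_add_cancel v u⟩

theorem enrg_tr (Λ : Finset (Site d)) (u : Site d) (σ : Cfg d) :
    enrg (Λ.image (· + u)) (shift (-u) σ) = enrg Λ σ := by
  unfold enrg
  rw [Finset.sum_image fun a _ b _ h => add_right_cancel h]
  refine Finset.sum_congr rfl fun w _ => ?_
  rw [nbrs_add, Finset.sum_image fun a _ b _ h => add_right_cancel h]
  refine Finset.sum_congr rfl fun v _ => ?_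
  have h1 : v + u ∈ Λ.image (· + u) ↔ v ∈ Λ := by
    rw [mem_tr, add_sub_cancel_right]
  have h2 : ∀ x : Site d, shift (-u) σ (x + u) = σ x := by
    intro x
    unfold shift
    rw [add_neg_cancel_right]
  rw [h2, h2]
  simp only [h1]

/-- translation of the sites of a finite set -/
def eTr (Λ : Finset (Site d)) (u : Site d) :
    {x // x ∈ Λ} ≃ {x // x ∈ Λ.image (· + u)} where
  toFun w := ⟨w.1 + u, mem_tr.2 (by rw [add_sub_cancel_right]; exact w.2)⟩
  invFun x := ⟨x.1 - u, mem_tr.1 x.2⟩
  left_inv w := Subtype.ext (add_sub_cancel_right _ _)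
  right_inv x := Subtype.ext (sub_add_cancel _ _)

theorem glue_tr (Λ : Finset (Site d)) (u : Site d) (η : Cfg d) (τ : Λ → Bool) :
    glue (Λ.image (· + u)) (fun x => τ ((eTr Λ u).symm x)) η =
      shift (-u) (glue Λ τ (shift u η)) := by
  funext v
  unfold shift glue
  by_cases h : v ∈ Λ.image (· + u)
  · have h' : v + -u ∈ Λ := by
      rw [← sub_eq_add_neg]
      exact mem_tr.1 h
    rw [dif_pos h, dif_pos h']
    congr 1
  · have h' : v + -u ∉ Λ := by
      rw [← sub_eq_add_neg]
      exact fun h2 => h (mem_tr.2 h2)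
    rw [dif_neg h, dif_neg h']
    show η v = η (v + -u + u)
    rw [neg_add_cancel_right]

theorem pf_TRAN (_hB : S_BASIC) : S_TRAN := by
  intro d β Λ η f u
  have key : ∀ F : Cfg d → ℝ, (∑ τ : (Λ.image (· + u) : Finset (Site d)) → Bool,
      F (glue (Λ.image (· + u)) τ η)) =
      ∑ τ : Λ → Bool, F (shift (-u) (glue Λ τ (shift u η))) := by
    intro F
    symm
    refine Fintype.sum_equiv (Equiv.arrowCongr (eTr Λ u) (Equiv.refl Bool)) _ _ fun τ => ?_
    rw [← glue_tr]
    rfl
  unfold ev pf wt
  rw [key (fun σ => f σ * Real.exp (β * enrg (Λ.image (· + u)) σ)),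
    key (fun σ => Real.exp (β * enrg (Λ.image (· + u)) σ))]
  simp only [enrg_tr]

end Pool.Agent.Helper90.Isg
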